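import Pool.Agent.Helper40_Dio.AStmt

/-!
# DIO, module THE (helper84): Theorem E for Euler triples
-/

set_option linter.all false
set_option autoImplicit false

namespace Pool.Agent.DIO.H84

open Real

/-! ## growth -/

theorem growth (C : ℝ) (hC : 1 ≤ C) : ∃ C0 : ℕ, ∀ c m : ℕ, C0 < c →
    (m : ℝ) ≤ C * (log c) ^ 60 → ((1000 * (m : ℝ)) ^ 100 < c) := by
  have hK : 0 < (1000 * C) ^ 100 := pow_pos (by linarith) 100
  have hε : 0 < 1 / (2 * (1000 * C) ^ 100) := div_pos one_pos (mul_pos two_pos hK)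
  have h1 := (isLittleO_pow_log_id_atTop (n := 6000)).bound hε
  obtain ⟨x0, hx0⟩ := Filter.eventually_atTop.1 h1
  refine ⟨max 1 ⌈x0⌉₊, fun c m hc hm => ?_⟩
  have hc1 : 1 < c := lt_of_le_of_lt (le_max_left _ _) hc
  have hc1' : (1 : ℝ) < c := by exact_mod_cast hc1
  have hcx : x0 ≤ c := by
    have h2 : ⌈x0⌉₊ < c := lt_of_le_of_lt (le_max_right _ _) hc
    exact (Nat.le_ceil x0).trans (by exact_mod_cast h2.le)
  have h3 := hx0 c hcx
  have hl : 0 < log (c : ℝ) := Real.log_pos hc1'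
  rw [id, Real.norm_of_nonneg (pow_nonneg hl.le _), Real.norm_of_nonneg (by linarith)] at h3
  have h4 : (1000 * (m : ℝ)) ^ 100 ≤ (1000 * (C * log c ^ 60)) ^ 100 := by
    apply pow_le_pow_left₀ (by positivity)
    exact mul_le_mul_of_nonneg_left hm (by norm_num)
  have h5 : (1000 * (C * log c ^ 60)) ^ 100 = (1000 * C) ^ 100 * log c ^ 6000 := by
    rw [← mul_assoc, mul_pow, ← pow_mul]
  rw [h5] at h4
  have h6 : (1000 * C) ^ 100 * log c ^ 6000 ≤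
      (1000 * C) ^ 100 * (1 / (2 * (1000 * C) ^ 100) * c) :=
    mul_le_mul_of_nonneg_left h3 hK.le
  have h7 : (1000 * C) ^ 100 * (1 / (2 * (1000 * C) ^ 100) * (c : ℝ)) = c / 2 := by
    generalize (1000 * C) ^ 100 = k at hK
    field_simp
  rw [h7] at h6
  have h8 : (c : ℝ) / 2 < c := by linarith
  exact (h4.trans h6).trans_lt h8

/-! ## elementary facts on Euler triples -/

section
variable {a b c r : ℕ}

theorem eu_r_le (h : Euler a b c r) : r ≤ b := by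
  obtain ⟨ha, hab, hr, hc⟩ := h
  by_contra hcon
  push_neg at hcon
  have h1 : (b + 1) * (b + 1) ≤ r * r := Nat.mul_le_mul hcon hcon
  have h2 : a * b ≤ b * b := Nat.mul_le_mul_right b hab.le
  nlinarith

theorem eu_a_lt (h : Euler a b c r) : a < r := by
  obtain ⟨ha, hab, hr, hc⟩ := h
  by_contra hcon
  push_neg at hcon
  have h1 : r * r ≤ a * a := Nat.mul_le_mul hcon hcon
  have h2 : a * a ≤ a * b := Nat.mul_le_mul_left a hab.le
  omega

theorem eu_b_lt (h : Euler a b c r) : b < c := by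
  have h1 := eu_a_lt h
  obtain ⟨ha, hab, hr, hc⟩ := h
  omega

theorem eu_c_lt (h : Euler a b c r) : c < 4 * b := by
  have h1 := eu_r_le h
  obtain ⟨ha, hab, hr, hc⟩ := h
  omega

theorem eu_c_ge (h : Euler a b c r) : 3 ≤ c := by
  have h1 := eu_a_lt h
  obtain ⟨ha, hab, hr, hc⟩ := h
  omega

theorem eu_s (h : Euler a b c r) : (a + r) * (a + r) = a * c + 1 := by
  obtain ⟨ha, hab, hr, hc⟩ := h
  rw [hc]
  have : (a + r) * (a + r) = a * a + 2 * (a * r) + r * r := by ring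
  rw [this, hr]; ring

theorem eu_t (h : Euler a b c r) : (b + r) * (b + r) = b * c + 1 := by
  obtain ⟨ha, hab, hr, hc⟩ := h
  rw [hc]
  have : (b + r) * (b + r) = b * b + 2 * (b * r) + r * r := by ring
  rw [this, hr]; ring

theorem eu_rst (h : Euler a b c r) : rst a b c = r * (a + r) * (b + r) := by
  unfold rst
  rw [← eu_s h, ← eu_t h, ← h.2.2.1, Nat.sqrt_eq, Nat.sqrt_eq, Nat.sqrt_eq]

/-- the regular extension of an Euler triple -/
theorem eu_reg (h : Euler a b c r) {d : ℤ} (hd : d = 4 * r * ((a + r) * (b + r))) :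
    d = a + b + c + 2 * a * b * c + 2 * rst a b c := by
  rw [eu_rst h, hd]
  obtain ⟨ha, hab, hr, hc⟩ := h
  have hr' : (r : ℤ) * r = a * b + 1 := by exact_mod_cast hr
  have hc' : (c : ℤ) = a + b + 2 * r := by exact_mod_cast hc
  push_cast
  rw [hc']
  linear_combination (2 * ((a : ℤ) + b) + 2 * r) * hr'

end

/-! ## the case m = n -/

theorem case_eq {a b c r : ℕ} {x y z : ℤ} {m n : ℕ} {ε ε' : ℤ} {d : ℕ} (hE : Euler a b c r)
    (hM : Meet0 a b c r x y z m n ε ε') (hn : 1 ≤ n) (hmn : m = n)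
    (hdv : (c : ℤ) ∣ (n : ℤ) ^ 2 + ε * m + ε' * n) (hz : z * z = c * d + 1) :
    (d : ℤ) = 4 * r * ((a + r) * (b + r)) ∨ (c : ℤ) ≤ 3 * (m : ℤ) ^ 2 := by
  subst hmn
  have hn' : (1 : ℤ) ≤ m := by exact_mod_cast hn
  have hc0 : (0 : ℤ) < c := by have := eu_c_ge hE; omega
  rcases hM.par with ⟨hm, -, he⟩ | ⟨-, -, he⟩
  · subst he
    rcases hM.hε with h1 | h1
    · right
      subst h1
      have h2 : (0 : ℤ) < (m : ℤ) ^ 2 + 1 * m + 1 * m := by positivity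
      have h3 := Int.le_of_dvd h2 hdv
      nlinarith
    · subst h1
      obtain ⟨k, hk⟩ := hm
      by_cases hk1 : k = 1
      · left
        subst hk1
        have hm2 : m = 2 := by omega
        subst hm2
        have e1 := hM.e1
        have e2 : (sqg a c (a + r) (-1) 1 2).1 =
            -((a + r : ℤ) * (a + r) + a * c) + 2 * (a + r) * c := by
          simp only [sqg]; ring
        rw [e1] at e2
        have hs : ((a : ℤ) + r) * (a + r) = a * c + 1 := by exact_mod_cast eu_s hE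
        have hr' : (r : ℤ) * r = a * b + 1 := by exact_mod_cast hE.2.2.1
        have hc' : (c : ℤ) = a + b + 2 * r := by exact_mod_cast hE.2.2.2
        have e3 : z = 2 * c * r - 1 := by
          simp only at e2
          rw [e2, hs]; ring
        rw [e3] at hz
        have e4 : (c : ℤ) * d = c * (4 * r * (r * c - 1)) := by linear_combination -hz
        have e5 := mul_left_cancel₀ hc0.ne' e4
        rw [e5, hc']
        linear_combination (4 * (r : ℤ)) * hr'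
      · right
        have hk2 : 2 ≤ k := by omega
        have hk2' : (2 : ℤ) ≤ k := by exact_mod_cast hk2
        have hmk : (m : ℤ) = 2 * k := by rw [hk]; push_cast; ring
        have h2 : (0 : ℤ) < (m : ℤ) ^ 2 + -1 * m + -1 * m := by rw [hmk]; nlinarith
        have h3 := Int.le_of_dvd h2 hdv
        nlinarith
  · right
    subst he
    have h1 : (m : ℤ) ^ 2 + ε * m + -ε * m = (m : ℤ) ^ 2 := by ring
    rw [h1] at hdv
    have h3 := Int.le_of_dvd (by positivity) hdv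
    nlinarith

/-! ## the case m > n, integers -/

/-- data in the case `m > n` -/
theorem case_lt_int {a b c r : ℕ} {x y z : ℤ} {m n : ℕ} {ε ε' : ℤ}
    (hM : Meet0 a b c r x y z m n ε ε') (hn : 1 ≤ n) (hmn : n < m) (hm2 : m ≤ 2 * n)
    (hex : ¬ (m = 4 ∧ n = 2 ∧ ε = -1)) {K : ℤ} (hK : 2 * K = (m : ℤ) ^ 2 - (n : ℤ) ^ 2) :
    n + 2 ≤ m ∧ 0 < K ∧ 0 ≤ (n : ℤ) ^ 2 + ε * m + ε' * n ∧
      2 * K + ((n : ℤ) ^ 2 + ε * m + ε' * n) ≤ 8 * (m : ℤ) ^ 2 := by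
  have hpar : n + 2 ≤ m := by
    rcases hM.par with ⟨⟨i, hi⟩, ⟨j, hj⟩, -⟩ | ⟨⟨i, hi⟩, ⟨j, hj⟩, -⟩ <;> omega
  have hn' : (1 : ℤ) ≤ n := by exact_mod_cast hn
  have hmn' : (n : ℤ) + 2 ≤ m := by exact_mod_cast hpar
  have hm2' : (m : ℤ) ≤ 2 * n := by exact_mod_cast hm2
  refine ⟨hpar, by nlinarith, ?_, ?_⟩
  · rcases hM.par with ⟨hm, hne, he⟩ | ⟨-, -, he⟩
    · rcases hM.hε with h1 | h1
      · rw [he, h1]; nlinarith
      · rw [he, h1]
        by_cases hn2 : n ≤ 2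
        · exfalso
          obtain ⟨j, hj⟩ := hne
          have : n = 2 := by omega
          exact hex ⟨by omega, this, h1⟩
        · have hn3 : (3 : ℤ) ≤ n := by exact_mod_cast (by omega : 3 ≤ n)
          nlinarith
    · rcases hM.hε with h1 | h1
      · rw [he, h1]; nlinarith
      · rw [he, h1]; nlinarith
  · have h1 : ε * (m : ℤ) ≤ m := by
      rcases hM.hε with h1 | h1 <;> rw [h1] <;> linarith
    have h2 : ε' * (n : ℤ) ≤ n := by
      have : ε' = 1 ∨ ε' = -1 := by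
        rcases hM.par with ⟨-, -, he⟩ | ⟨-, -, he⟩ <;> rcases hM.hε with h1 | h1 <;>
          rw [he, h1] <;> simp
      rcases this with h1 | h1 <;> rw [h1] <;> linarith
    nlinarith

/-- the bound `c ≤ 8 T^8 a` -/
theorem pi_bound {K e T P : ℤ} (hK : 0 < K) (he : 0 ≤ e) (hT : 2 * K + e ≤ T) {g : ℤ}
    (hP : 0 ≤ P)
    (h : g ≤ 4 * K ^ 2 * (e + (2 * K + e) ^ 3) * (e + (2 * K + e) ^ 2 * (2 * K + e + 2)) * P) :
    g ≤ 8 * T ^ 8 * P := by
  have hT1 : 1 ≤ T := by linarith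
  have hS0 : 0 ≤ 2 * K + e := by linarith
  have h1 : 4 * K ^ 2 ≤ T ^ 2 := by
    have : (2 * K) ^ 2 ≤ T ^ 2 := pow_le_pow_left₀ (by linarith) (by linarith) 2
    linarith [this, (by ring : (2 * K) ^ 2 = 4 * K ^ 2)]
  have e2 : T ≤ T ^ 2 := by
    calc T = T ^ 1 := (pow_one T).symm
      _ ≤ T ^ 2 := pow_le_pow_right₀ hT1 (by norm_num)
  have e3 : T ^ 2 ≤ T ^ 3 := pow_le_pow_right₀ hT1 (by norm_num)
  have h2 : e + (2 * K + e) ^ 3 ≤ 2 * T ^ 3 := by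
    have : (2 * K + e) ^ 3 ≤ T ^ 3 := pow_le_pow_left₀ hS0 hT 3
    linarith
  have h3 : e + (2 * K + e) ^ 2 * (2 * K + e + 2) ≤ 4 * T ^ 3 := by
    have h4 : (2 * K + e) ^ 2 ≤ T ^ 2 := pow_le_pow_left₀ hS0 hT 2
    have h5 : (2 * K + e) ^ 2 * (2 * K + e + 2) ≤ T ^ 2 * (T + 2) :=
      mul_le_mul h4 (by linarith) (by linarith) (by positivity)
    have h6 : T ^ 2 * (T + 2) = T ^ 3 + 2 * T ^ 2 := by ring
    linarith
  have p2 : 0 ≤ e + (2 * K + e) ^ 3 := by positivity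
  have p3 : 0 ≤ e + (2 * K + e) ^ 2 * (2 * K + e + 2) := by positivity
  refine h.trans (mul_le_mul_of_nonneg_right ?_ hP)
  calc 4 * K ^ 2 * (e + (2 * K + e) ^ 3) * (e + (2 * K + e) ^ 2 * (2 * K + e + 2))
      ≤ T ^ 2 * (2 * T ^ 3) * (4 * T ^ 3) := by
        refine mul_le_mul (mul_le_mul h1 h2 p2 (by positivity)) h3 p3 (by positivity)
    _ = 8 * T ^ 8 := by ring

/-! ## the real part -/

theorem alp_nonneg (a c s : ℕ) : 0 ≤ alp a c s := by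
  unfold alp; positivity

theorem sqrt_le_s {a c s : ℕ} (h : s * s = a * c + 1) : √((a * c : ℕ) : ℝ) ≤ s := by
  rw [Real.sqrt_le_left (by positivity)]
  have : ((a * c : ℕ) : ℝ) ≤ ((s * s : ℕ) : ℝ) := by exact_mod_cast (by omega)
  rw [sq]; push_cast at this ⊢; exact this

theorem alp_le {a c s : ℕ} (h : s * s = a * c + 1) : alp a c s ≤ 2 * s := by
  unfold alp; linarith [sqrt_le_s h]

theorem alp_sq {a c s : ℕ} (h : s * s = a * c + 1) : 4 * ((a : ℝ) * c) ≤ alp a c s ^ 2 := by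
  have h1 := sqrt_le_s h
  have h2 : 2 * √((a * c : ℕ) : ℝ) ≤ alp a c s := by unfold alp; linarith
  have h3 := pow_le_pow_left₀ (by positivity) h2 2
  rw [mul_pow, Real.sq_sqrt (by positivity)] at h3
  push_cast at h3; linarith

theorem alp_one_le {a c s : ℕ} (h : 1 ≤ s) : 1 ≤ alp a c s := by
  unfold alp
  have : (1 : ℝ) ≤ s := by exact_mod_cast h
  have := Real.sqrt_nonneg ((a * c : ℕ) : ℝ)
  linarith

/-- `a β² ≤ b α²` -/
theorem beta_le {a b c s t : ℕ} (hab : a ≤ b) (hs : s * s = a * c + 1) (ht : t * t = b * c + 1) :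
    (a : ℝ) * alp b c t ^ 2 ≤ b * alp a c s ^ 2 := by
  have hs' : (s : ℝ) * s = a * c + 1 := by exact_mod_cast hs
  have ht' : (t : ℝ) * t = b * c + 1 := by exact_mod_cast ht
  have hab' : (a : ℝ) ≤ b := by exact_mod_cast hab
  have h1 : √(a : ℝ) * alp b c t ≤ √(b : ℝ) * alp a c s := by
    unfold alp
    have e1 : √(a : ℝ) * √((b * c : ℕ) : ℝ) = √(b : ℝ) * √((a * c : ℕ) : ℝ) := by
      rw [← Real.sqrt_mul (by positivity), ← Real.sqrt_mul (by positivity)]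
      congr 1; push_cast; ring
    have e2 : √(a : ℝ) * t ≤ √(b : ℝ) * s := by
      have : (√(a : ℝ) * t) ^ 2 ≤ (√(b : ℝ) * s) ^ 2 := by
        rw [mul_pow, mul_pow, Real.sq_sqrt (by positivity), Real.sq_sqrt (by positivity),
          sq (t : ℝ), sq (s : ℝ), hs', ht']
        linarith
      exact (abs_le_of_sq_le_sq' this (by positivity)).2
    rw [mul_add, mul_add, e1]; linarith
  have h2 := pow_le_pow_left₀ (mul_nonneg (Real.sqrt_nonneg _) (alp_nonneg _ _ _)) h1 2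
  rwa [mul_pow, mul_pow, Real.sq_sqrt (by positivity), Real.sq_sqrt (by positivity)] at h2

/-- the case of small `n` -/
theorem small_n {A B C α β P : ℝ} {m n : ℕ} (hA : 0 < A) (hB : 0 < B) (hC : 0 < C)
    (hα : 1 ≤ α) (hβ : 0 ≤ β) (hP : 1 ≤ P) (hCP : C ≤ P * A) (hBC : B ≤ C)
    (h1 : α ^ m ≤ 8 * β ^ n) (h2 : n + 2 ≤ m) (h3 : A * β ^ 2 ≤ B * α ^ 2)
    (h4 : 4 * (A * C) ≤ α ^ 2) (hn : n ≤ 7) : C ^ 4 ≤ 4 * P ^ 9 := by
  have hα0 : 0 < α := by linarith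
  have e1 : α ^ (n + 2) ≤ 8 * β ^ n := (pow_le_pow_right₀ hα h2).trans h1
  have e2 : (α ^ (n + 2)) ^ 2 ≤ (8 * β ^ n) ^ 2 := pow_le_pow_left₀ (by positivity) e1 2
  have e3 : A ^ n * (β ^ 2) ^ n ≤ B ^ n * (α ^ 2) ^ n := by
    rw [← mul_pow, ← mul_pow]; exact pow_le_pow_left₀ (by positivity) h3 n
  have e4 : B ^ n ≤ P ^ n * A ^ n := by
    rw [← mul_pow]; exact pow_le_pow_left₀ hB.le (hBC.trans hCP) n
  have e5 : A ^ n * ((α ^ 2) ^ n * α ^ 4) ≤ A ^ n * ((α ^ 2) ^ n * (64 * P ^ n)) := by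
    calc A ^ n * ((α ^ 2) ^ n * α ^ 4) = A ^ n * (α ^ (n + 2)) ^ 2 := by ring
      _ ≤ A ^ n * (8 * β ^ n) ^ 2 := mul_le_mul_of_nonneg_left e2 (by positivity)
      _ = 64 * (A ^ n * (β ^ 2) ^ n) := by ring
      _ ≤ 64 * (B ^ n * (α ^ 2) ^ n) := mul_le_mul_of_nonneg_left e3 (by norm_num)
      _ ≤ 64 * (P ^ n * A ^ n * (α ^ 2) ^ n) := by
          refine mul_le_mul_of_nonneg_left ?_ (by norm_num)
          exact mul_le_mul_of_nonneg_right e4 (by positivity)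
      _ = A ^ n * ((α ^ 2) ^ n * (64 * P ^ n)) := by ring
  have e6 : α ^ 4 ≤ 64 * P ^ n :=
    le_of_mul_le_mul_left (le_of_mul_le_mul_left e5 (by positivity)) (by positivity)
  have e7 : α ^ 4 ≤ 64 * P ^ 7 :=
    e6.trans (mul_le_mul_of_nonneg_left (pow_le_pow_right₀ hP hn) (by norm_num))
  have e8 : (4 * (A * C)) ^ 2 ≤ α ^ 4 := by
    calc (4 * (A * C)) ^ 2 ≤ (α ^ 2) ^ 2 := pow_le_pow_left₀ (by positivity) h4 2
      _ = α ^ 4 := by ring
  have e9 : C ^ 2 ≤ (P * A) ^ 2 := pow_le_pow_left₀ hC.le hCP 2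
  have e10 : 16 * C ^ 4 ≤ P ^ 2 * (4 * (A * C)) ^ 2 := by
    calc 16 * C ^ 4 = 16 * C ^ 2 * C ^ 2 := by ring
      _ ≤ 16 * C ^ 2 * (P * A) ^ 2 := mul_le_mul_of_nonneg_left e9 (by positivity)
      _ = P ^ 2 * (4 * (A * C)) ^ 2 := by ring
  have e11 : P ^ 2 * (4 * (A * C)) ^ 2 ≤ P ^ 2 * (64 * P ^ 7) :=
    mul_le_mul_of_nonneg_left (e8.trans e7) (by positivity)
  have e12 : P ^ 2 * (64 * P ^ 7) = 64 * P ^ 9 := by ring
  rw [e12] at e11
  linarith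

/-- the bound for `l` -/
theorem l_bound {A C ρ β P : ℝ} {l n : ℕ} (hA : 0 < A) (hC : 0 < C) (hρ : 1 ≤ ρ)
    (hβ : 0 ≤ β) (hP : 1 ≤ P) (hCP : C ≤ P * A) (h1 : ρ ^ l ≤ 3 * β ^ n) (h2 : 2 * A ≤ ρ)
    (h3 : β ≤ 2 * C) (hn : 1 ≤ n) (hl : 13 * n < 10 * l) : (2 * C) ^ 3 ≤ 3 ^ 10 * P ^ 13 := by
  have e1 : (ρ ^ l) ^ 10 ≤ (3 * β ^ n) ^ 10 := pow_le_pow_left₀ (by positivity) h1 10
  have e2 : ρ ^ (13 * n) ≤ (ρ ^ l) ^ 10 := by
    rw [← pow_mul]; exact pow_le_pow_right₀ hρ (by omega)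
  have e3 : (3 * β ^ n) ^ 10 ≤ 3 ^ 10 * (2 * C) ^ (10 * n) := by
    calc (3 * β ^ n) ^ 10 = 3 ^ 10 * β ^ (10 * n) := by
          rw [mul_pow, ← pow_mul, mul_comm n 10]
      _ ≤ _ := mul_le_mul_of_nonneg_left (pow_le_pow_left₀ hβ h3 _) (by positivity)
  have e4 : 2 * C ≤ P * ρ := by
    calc 2 * C ≤ 2 * (P * A) := by linarith
      _ = P * (2 * A) := by ring
      _ ≤ P * ρ := mul_le_mul_of_nonneg_left h2 (by linarith)
  have e5 : (2 * C) ^ (13 * n) ≤ P ^ (13 * n) * ρ ^ (13 * n) := by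
    rw [← mul_pow]; exact pow_le_pow_left₀ (by positivity) e4 _
  have e6 : P ^ (13 * n) * ρ ^ (13 * n) ≤ P ^ (13 * n) * (3 ^ 10 * (2 * C) ^ (10 * n)) :=
    mul_le_mul_of_nonneg_left ((e2.trans e1).trans e3) (by positivity)
  have e7 : (2 * C) ^ (13 * n) = (2 * C) ^ (10 * n) * ((2 * C) ^ 3) ^ n := by
    rw [← pow_mul, ← pow_add]; congr 1; ring
  have e8 : (3 : ℝ) ^ 10 ≤ (3 ^ 10) ^ n := by
    calc (3 : ℝ) ^ 10 = (3 ^ 10) ^ 1 := (pow_one _).symm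
      _ ≤ (3 ^ 10) ^ n := pow_le_pow_right₀ (by norm_num) hn
  have e9 : (2 * C) ^ (10 * n) * ((2 * C) ^ 3) ^ n ≤
      (2 * C) ^ (10 * n) * (3 ^ 10 * P ^ 13) ^ n := by
    calc (2 * C) ^ (10 * n) * ((2 * C) ^ 3) ^ n = (2 * C) ^ (13 * n) := e7.symm
      _ ≤ P ^ (13 * n) * (3 ^ 10 * (2 * C) ^ (10 * n)) := e5.trans e6
      _ = (2 * C) ^ (10 * n) * (3 ^ 10 * P ^ (13 * n)) := by ring
      _ ≤ (2 * C) ^ (10 * n) * ((3 ^ 10) ^ n * P ^ (13 * n)) := by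
          refine mul_le_mul_of_nonneg_left ?_ (by positivity)
          exact mul_le_mul_of_nonneg_right e8 (by positivity)
      _ = (2 * C) ^ (10 * n) * (3 ^ 10 * P ^ 13) ^ n := by
          rw [mul_pow (3 ^ 10 : ℝ), ← pow_mul P]
  have e10 : ((2 * C) ^ 3) ^ n ≤ (3 ^ 10 * P ^ 13) ^ n :=
    le_of_mul_le_mul_left e9 (by positivity)
  exact le_of_pow_le_pow_left₀ (by omega) (by positivity) e10

/-! ## contradictions from growth -/

theorem contra {c m : ℝ} (hm : 1 ≤ m) (hc : (1000 * m) ^ 100 < c) :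
    ¬ c ≤ 3 * m ^ 2 ∧ ¬ c ^ 4 ≤ 4 * (8 * (8 * m ^ 2) ^ 8) ^ 9 ∧
      ¬ (2 * c) ^ 3 ≤ 3 ^ 10 * (8 * (8 * m ^ 2) ^ 8) ^ 13 ∧ ¬ c ≤ 1000 * (8 * m ^ 2) ^ 8 := by
  obtain ⟨M, hM⟩ : ∃ M, M = 1000 * m := ⟨_, rfl⟩
  rw [← hM] at hc
  have hM1 : 1000 ≤ M := by linarith
  have hM1' : 1 ≤ M := by linarith
  have hM0 : 0 < M := by linarith
  have hmM : m = M / 1000 := by rw [hM]; field_simp
  have hmM' : m ≤ M := by linarith
  have h16 : 8 * (8 * m ^ 2) ^ 8 ≤ M ^ 16 := by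
    have h1 : 8 * (8 * m ^ 2) ^ 8 = 8 ^ 9 * m ^ 16 := by ring
    rw [h1, hmM, div_pow]
    have h2 : (8 : ℝ) ^ 9 * (M ^ 16 / 1000 ^ 16) = (8 ^ 9 / 1000 ^ 16) * M ^ 16 := by ring
    rw [h2]
    have h3 : (8 : ℝ) ^ 9 / 1000 ^ 16 ≤ 1 := by norm_num
    have := mul_le_mul_of_nonneg_right h3 (pow_nonneg hM0.le 16)
    linarith
  have h16' : 0 ≤ 8 * (8 * m ^ 2) ^ 8 := by positivity
  have hc0 : 0 < c := lt_trans (by positivity) hc
  refine ⟨fun h => ?_, fun h => ?_, fun h => ?_, fun h => ?_⟩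
  · have h1 : 3 * m ^ 2 ≤ M * M ^ 2 := by
      refine mul_le_mul (by linarith) (pow_le_pow_left₀ (by linarith) hmM' 2) (by positivity)
        hM0.le
    have h2 : M * M ^ 2 = M ^ 3 := by ring
    have h3 : M ^ 3 ≤ M ^ 100 := pow_le_pow_right₀ hM1' (by norm_num)
    linarith
  · have h1 : (8 * (8 * m ^ 2) ^ 8) ^ 9 ≤ (M ^ 16) ^ 9 := pow_le_pow_left₀ h16' h16 9
    have h2 : 4 * (8 * (8 * m ^ 2) ^ 8) ^ 9 ≤ M * (M ^ 16) ^ 9 :=
      mul_le_mul (by linarith) h1 (by positivity) hM0.le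
    have h3 : M * (M ^ 16) ^ 9 = M ^ 145 := by ring
    have h4 : M ^ 145 ≤ M ^ 400 := pow_le_pow_right₀ hM1' (by norm_num)
    have h5 : (M ^ 100) ^ 4 < c ^ 4 := pow_lt_pow_left₀ hc (by positivity) (by norm_num)
    have h6 : (M ^ 100) ^ 4 = M ^ 400 := by rw [← pow_mul]
    linarith
  · have h1 : (8 * (8 * m ^ 2) ^ 8) ^ 13 ≤ (M ^ 16) ^ 13 := pow_le_pow_left₀ h16' h16 13
    have h0 : (3 : ℝ) ^ 10 ≤ M ^ 2 := by
      calc (3 : ℝ) ^ 10 ≤ 1000 ^ 2 := by norm_num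
        _ ≤ M ^ 2 := pow_le_pow_left₀ (by norm_num) hM1 2
    have h2 : 3 ^ 10 * (8 * (8 * m ^ 2) ^ 8) ^ 13 ≤ M ^ 2 * (M ^ 16) ^ 13 :=
      mul_le_mul h0 h1 (by positivity) (by positivity)
    have h3 : M ^ 2 * (M ^ 16) ^ 13 = M ^ 210 := by ring
    have h4 : M ^ 210 ≤ M ^ 300 := pow_le_pow_right₀ hM1' (by norm_num)
    have h5 : (M ^ 100) ^ 3 < c ^ 3 := pow_lt_pow_left₀ hc (by positivity) (by norm_num)
    have h6 : (M ^ 100) ^ 3 = M ^ 300 := by rw [← pow_mul]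
    have h7 : c ^ 3 ≤ (2 * c) ^ 3 := pow_le_pow_left₀ hc0.le (by linarith) 3
    linarith
  · have h1 : (8 * m ^ 2) ^ 8 ≤ M ^ 16 := by
      have : 0 ≤ (8 * m ^ 2) ^ 8 := by positivity
      linarith
    have h2 : 1000 * (8 * m ^ 2) ^ 8 ≤ M * M ^ 16 :=
      mul_le_mul hM1 h1 (by positivity) hM0.le
    have h3 : M * M ^ 16 = M ^ 17 := by ring
    have h4 : M ^ 17 ≤ M ^ 100 := pow_le_pow_right₀ hM1' (by norm_num)
    linarith

/-! ## integers for AR2 -/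

theorem ar2_int {l n : ℕ} {ε' K' A g' d' rr : ℤ} (hε : ε' = 1 ∨ ε' = -1) (hn : 8 ≤ n)
    (hnl : n ≤ l) (hl : 10 * l ≤ 13 * n) (hK : 2 * K' = (l : ℤ) ^ 2 - (n : ℤ) ^ 2)
    (hA : 0 < A) (hAd : A ≤ d') {m : ℕ} (hnm : n ≤ m) :
    0 < 2 * K' - ((l : ℤ) - (n : ℤ) ^ 2 - ε' * n) ∧
    2 * K' * A + ((l : ℤ) - (n : ℤ) ^ 2 - ε' * n) * d' ≤ 0 ∧
    |2 * K'| + |(l : ℤ) - (n : ℤ) ^ 2 - ε' * n| ≤ 8 * (m : ℤ) ^ 2 := by
  have hn' : (8 : ℤ) ≤ n := by exact_mod_cast hn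
  have hnl' : (n : ℤ) ≤ l := by exact_mod_cast hnl
  have hl' : 10 * (l : ℤ) ≤ 13 * n := by exact_mod_cast hl
  have hnm' : (n : ℤ) ≤ m := by exact_mod_cast hnm
  have e1 : ε' * (n : ℤ) ≤ n := by rcases hε with h | h <;> rw [h] <;> linarith
  have e2 : -(n : ℤ) ≤ ε' * (n : ℤ) := by rcases hε with h | h <;> rw [h] <;> linarith
  have hln2 : (n : ℤ) ^ 2 ≤ (l : ℤ) ^ 2 := pow_le_pow_left₀ (by linarith) hnl' 2
  have hK0 : 0 ≤ 2 * K' := by rw [hK]; linarith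
  have hl2 : 100 * (l : ℤ) ^ 2 ≤ 169 * (n : ℤ) ^ 2 := by
    have := pow_le_pow_left₀ (by linarith : (0 : ℤ) ≤ 10 * l) hl' 2
    nlinarith
  have hnn : 8 * (n : ℤ) ≤ (n : ℤ) ^ 2 := by nlinarith
  have hll : 8 * (l : ℤ) ≤ (l : ℤ) ^ 2 := by nlinarith
  have hmm : (n : ℤ) ^ 2 ≤ (m : ℤ) ^ 2 := pow_le_pow_left₀ (by linarith) hnm' 2
  refine ⟨by rw [hK]; linarith, ?_, ?_⟩
  · have h1 : 2 * K' * A ≤ 2 * K' * d' := mul_le_mul_of_nonneg_left hAd hK0
    have h2 : 2 * K' + ((l : ℤ) - (n : ℤ) ^ 2 - ε' * n) ≤ 0 := by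
      rw [hK]; linarith
    have h3 : (2 * K' + ((l : ℤ) - (n : ℤ) ^ 2 - ε' * n)) * d' ≤ 0 :=
      mul_nonpos_of_nonpos_of_nonneg h2 (by linarith)
    have h4 : (2 * K' + ((l : ℤ) - (n : ℤ) ^ 2 - ε' * n)) * d' =
        2 * K' * d' + ((l : ℤ) - (n : ℤ) ^ 2 - ε' * n) * d' := by ring
    linarith
  · have h1 : |(l : ℤ) - (n : ℤ) ^ 2 - ε' * n| ≤ l + (n : ℤ) ^ 2 + n := by
      rw [abs_le]
      constructor <;> linarith
    rw [abs_of_nonneg hK0, hK]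
    linarith

/-! ## main theorem -/

theorem the (clz : ClzStatement) (cly : ClyStatement) (cnc : CncStatement) (cnb : CnbStatement)
    (sz1 : Sz1Statement) (sz2 : Sz2Statement) (apb : ApbStatement) (fct : FctStatement)
    (ar1 : Ar1Statement) (ar2 : Ar2Statement) : TheStatement := by
  obtain ⟨C, hC, hApb⟩ := apb
  obtain ⟨C0, hC0⟩ := growth C hC
  refine ⟨C0, fun a b c r hE hc d hd => ?_⟩
  left
  obtain ⟨x, y, z, m, n, ε, ε', hz, hM⟩ := clz a b c r d hE hd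
  obtain ⟨l, hln, hl⟩ := cly a b c r x y z m n ε ε' hE hM
  obtain ⟨hn1, hnm, hm2, hex, hab1⟩ := sz1 a b c r x y z m n ε ε' hE hM
  obtain ⟨K, hK, hKd⟩ := cnc a b c r x y z m n ε ε' hE hM
  have hε' : ε' = 1 ∨ ε' = -1 := by
    rcases hM.par with ⟨-, -, he⟩ | ⟨-, -, he⟩ <;> rcases hM.hε with h1 | h1 <;>
      rw [he, h1] <;> simp
  have hc3 := eu_c_ge hE
  have hc3' : (3 : ℤ) ≤ c := by exact_mod_cast hc3
  have sqε : ε ^ 2 = 1 := by rcases hM.hε with h | h <;> rw [h] <;> norm_num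
  have sqε' : ε' ^ 2 = 1 := by rcases hε' with h | h <;> rw [h] <;> norm_num
  have hM1 : Meet1 a b c r (a + r) (b + r) ε 1 ε' 1 x y z m n :=
    { ha := hE.1
      hab := hE.2.1
      hbc := eu_b_lt hE
      hr := hE.2.2.1
      hs := eu_s hE
      ht := eu_t hE
      x0pos := one_pos
      y1pos := one_pos
      p0 := by rw [sqε]; ring
      p1 := by rw [sqε']; ring
      h0 := by rw [sqε]; nlinarith
      h1 := by rw [sqε']; nlinarith
      hz := hM.hz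
      e1 := by push_cast; exact hM.e1
      e2 := by push_cast; exact hM.e2 }
  have hX := hApb a b c r (a + r) (b + r) ε 1 ε' 1 x y z m n hM1
  have hm1 : 1 ≤ m := hn1.trans hnm
  have hm1' : (1 : ℝ) ≤ m := by exact_mod_cast hm1
  have hmX : (m : ℝ) ≤ C * log c ^ 60 := by
    have : (0 : ℝ) ≤ n := Nat.cast_nonneg n
    linarith
  have hgr := hC0 c m hc hmX
  obtain ⟨k1, k2, k3, k4⟩ := contra hm1' hgr
  rcases hnm.eq_or_lt with hmn | hmn
  · -- m = n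
    have hK0 : K = 0 := by
      rw [hmn] at hK
      have : 2 * K = 0 := by rw [hK]; ring
      omega
    rw [hK0, zero_mul, zero_add] at hKd
    rcases case_eq hE hM hn1 hmn.symm hKd hz with h | h
    · exact eu_reg hE h
    · exfalso
      apply k1
      exact_mod_cast h
  · exfalso
    obtain ⟨hnm2, hKpos, he0, hT⟩ := case_lt_int hM hn1 hmn hm2 hex hK
    obtain ⟨A, B, γ, δ, hA, hB, hAδ, hBγ, haAB, hcγδ, harA, hBA, hbf, hrf⟩ := fct a b c r hE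
    have hdvd : γ * δ ∣ K * (A * B * (A * γ + 1)) + ((n : ℤ) ^ 2 + ε * m + ε' * n) := by
      rw [← hcγδ, ← haAB, ← harA]; exact hKd
    obtain ⟨κ1, κ2, hκ1, hκ2, q1, q2, q3, q4, q5, q6⟩ :=
      ar1 A B γ δ K _ hA hB hAδ hBγ hBA hKpos he0 hdvd
    have hPi := pi_bound hKpos he0 hT (P := A * B) (mul_pos hA hB).le q6
    rw [← hcγδ, ← haAB] at hPi
    -- real version
    have hPiR : (c : ℝ) ≤ 8 * (8 * (m : ℝ) ^ 2) ^ 8 * a := by exact_mod_cast hPi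
    have hP1 : (1 : ℝ) ≤ 8 * (8 * (m : ℝ) ^ 2) ^ 8 := by
      have h1 : (1 : ℝ) ≤ (m : ℝ) ^ 2 := one_le_pow₀ hm1'
      have h2 : (1 : ℝ) ≤ (8 * (m : ℝ) ^ 2) ^ 8 := one_le_pow₀ (by linarith)
      linarith
    have haR : (0 : ℝ) < a := by exact_mod_cast hE.1
    have hbR : (0 : ℝ) < b := by
      have := hE.1; have := hE.2.1
      exact_mod_cast (by omega : 0 < b)
    have hcR : (0 : ℝ) < c := by exact_mod_cast (by omega : 0 < c)
    have hbcR : (b : ℝ) ≤ c := by exact_mod_cast (eu_b_lt hE).le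
    have hn8 : 8 ≤ n := by
      by_contra hcon
      apply k2
      exact small_n haR hbR hcR (alp_one_le (by have := hE.1; omega)) (alp_nonneg _ _ _) hP1
        hPiR hbcR hab1 hnm2 (beta_le hE.2.1.le (eu_s hE) (eu_t hE)) (alp_sq (eu_s hE))
        (by omega)
    obtain ⟨hnl, -, hlb⟩ := sz2 a b c r x y z l m n ε ε' hE hM hl hn1
    have hr1 : 1 ≤ r := by have := eu_a_lt hE; omega
    have hρa : 2 * (a : ℝ) ≤ alp a b r := by
      unfold alp
      have h1 : (a : ℝ) ≤ r := by exact_mod_cast (eu_a_lt hE).le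
      have h2 : (a : ℝ) ≤ √((a * b : ℕ) : ℝ) := by
        apply Real.le_sqrt_of_sq_le
        have : a * a ≤ a * b := Nat.mul_le_mul_left a hE.2.1.le
        rw [sq]; exact_mod_cast this
      linarith
    have hβc : alp b c (b + r) ≤ 2 * (c : ℝ) := by
      refine (alp_le (eu_t hE)).trans ?_
      have h1 : b + r ≤ c := by have := hE.2.2.2; omega
      have h2 : ((b + r : ℕ) : ℝ) ≤ c := by exact_mod_cast h1
      linarith
    have hl13 : 10 * l ≤ 13 * n := by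
      by_contra hcon
      apply k3
      exact l_bound haR hcR (alp_one_le hr1) (alp_nonneg _ _ _) hP1 hPiR hlb hρa hβc hn1
        (by omega)
    obtain ⟨K', hK', hK'd⟩ := cnb a b c r x y z l m n ε ε' hE hM hln hl
    have hg' : 0 < γ - B := by linarith
    have hd' : 0 < δ - A := by linarith
    have hAd : A ≤ δ - A := by
      have h1 : A * (γ - B) ≤ (δ - A) * (γ - B) := by
        have h2 : A * (γ - B) = r - 1 := by linarith
        have h3 : (r : ℤ) ≤ b := by exact_mod_cast eu_r_le hE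
        rw [h2, mul_comm (δ - A), ← hbf]; linarith
      exact le_of_mul_le_mul_right h1 hg'
    obtain ⟨r1, r2, r3⟩ := ar2_int (rr := 0) (g' := 0) hε' hn8 hnl hl13 hK' hA hAd hnm
    have hdvd2 : (γ - B) * (δ - A) ∣ K' * (A * B * (A * (γ - B) + 1)) +
        ((l : ℤ) - (n : ℤ) ^ 2 - ε' * n) := by
      rw [← hbf, ← haAB, ← hrf]; exact hK'd
    have hc4 : γ * δ ≤ 4 * ((γ - B) * (δ - A)) := by
      rw [← hbf, ← hcγδ]
      exact_mod_cast (eu_c_lt hE).le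
    have hfin := ar2 A B γ δ K _ κ1 κ2 K' _ hA hB hAδ hBγ hBA hKpos he0 hκ1 hκ2 q1 q2 q3 q4 q5
      hc4 hdvd2 r1 r2 (8 * (m : ℤ) ^ 2) hT r3
    apply k4
    rw [← hcγδ] at hfin
    exact_mod_cast hfin

end Pool.Agent.DIO.H84
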